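import Pool.Agent.Lib.MP_cccab4_an.T01b
import Pool.Agent.Lib.MP_cccab4_an.T04

set_option autoImplicit false

/-!
# NA (50 lines): energy of a QS embedding over a closed set. MODEL: Mprime in T04, much simpler

`low` (T01b) gives `c > 0` with `c * diam (f '' ball x r) ^ Q ≤ μ.real (f '' ball x r)`. `n` from `net_overlap`. `ν = μ.comap f` (as in T04). Every term of
`Ek Q k W f` is at most `c⁻¹ * ν.real (ball x (4 * ep k))`; the balls lie in `cthickening (4 * ep k) W`, overlap `≤ n` (`t04_sum_real` with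
`ball x (4 * ep k) ∩ univ`), so `Ek Q k W f ≤ c⁻¹ * (n * ν.real (cthickening (4 * ep k) W)) → c⁻¹ * (n * ν.real W)` (`hlim2` of T04). `C = c⁻¹ * (n + 1)`.
-/

open MeasureTheory Metric Set Filter Topology
open scoped ENNReal NNReal

namespace QSCoh

variable {Z : Type*} [MetricSpace Z] [CompactSpace Z] [MeasurableSpace Z] [BorelSpace Z]
  {μ : Measure Z} {Q : ℝ}

theorem low_energy (H : Sp Z μ Q) {f : Z → Z} (hc : Continuous f) (hi : Function.Injective f) {η : ℝ → ℝ}
    (hη : Gauge η) (hq : QSg η f) : ∃ C : ℝ, 0 < C ∧ ∀ W : Set Z, IsClosed W → ∀ δ : ℝ, 0 < δ →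
    ∀ᶠ k in atTop, Ek Q k W f ≤ C * μ.real (f '' W) + δ := by
  have := finite_mu H
  obtain ⟨n, hn⟩ := net_overlap H
  obtain ⟨c, hcp, hlow⟩ := low H hc hi hη hq
  refine ⟨c⁻¹ * (n + 1), by positivity, ?_⟩
  intro W hW δ hδ
  have hemb : MeasurableEmbedding f := (hc.isClosedEmbedding hi).measurableEmbedding
  set ν : Measure Z := μ.comap f with hν
  have hνa : ∀ A : Set Z, ν A = μ (f '' A) := fun A => hemb.comap_apply μ A
  have hνfin : IsFiniteMeasure ν := ⟨by rw [hνa]; exact measure_lt_top μ _⟩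
  have hνr : ∀ A : Set Z, ν.real A = μ.real (f '' A) := fun A => by
    unfold Measure.real
    rw [hνa]
  have hlim2 : Tendsto (fun k => ν.real (cthickening (4 * ep k) W)) atTop (𝓝 (ν.real W)) := by
    have h1 := (tendsto_measure_cthickening_of_isClosed (μ := ν) (s := W)
      ⟨1, one_pos, measure_ne_top _ _⟩ hW).comp t04_ep_tendsto
    exact (ENNReal.tendsto_toReal (measure_ne_top ν W)).comp h1
  have hD := H.hD
  have hbound : ∀ k, 4 * ep k ≤ diam (univ : Set Z) → Ek Q k W f ≤
      c⁻¹ * (n * ν.real (cthickening (4 * ep k) W)) := by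
    intro k hk
    have hr : 0 < 4 * ep k := by have := t04_ep_pos k; positivity
    obtain ⟨A, hAn, hAW, hEA⟩ : ∃ A : Finset Z, A ⊆ net Z k ∧ (∀ x ∈ A, x ∈ W) ∧
        Ek Q k W f = ∑ x ∈ A, diam (f '' ball x (4 * ep k)) ^ Q := by
      classical
      refine ⟨(net Z k).filter (fun x => x ∈ W), Finset.filter_subset _ _,
        fun x hx => (Finset.mem_filter.1 hx).2, ?_⟩
      unfold Ek
      refine Finset.sum_congr ?_ fun _ _ => rfl
      ext x
      simp only [Finset.mem_filter]
    rw [hEA]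
    have hterm : ∀ x : Z, diam (f '' ball x (4 * ep k)) ^ Q ≤ c⁻¹ * ν.real (ball x (4 * ep k)) := by
      intro x
      have h4 := hlow x (4 * ep k) hr hk
      rw [← hνr] at h4
      rw [inv_mul_eq_div, le_div_iff₀ hcp, mul_comm]
      exact h4
    have hover : ∀ z, ∀ A' ⊆ A, (∀ x ∈ A', z ∈ ball x (4 * ep k) ∩ univ) → A'.card ≤ n := by
      intro z A' hA' hz
      refine hn k z A' (hA'.trans hAn) fun x hx => ?_
      exact le_of_lt (hz x hx).1
    refine (Finset.sum_le_sum fun x _ => hterm x).trans ?_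
    rw [← Finset.mul_sum]
    have s1 := t04_sum_real ν A (fun x => ball x (4 * ep k) ∩ univ) (fun x => measurableSet_ball.inter MeasurableSet.univ)
      (cthickening (4 * ep k) W) isClosed_cthickening.measurableSet (by
        intro x hx y hy
        exact mem_cthickening_of_dist_le y x _ _ (hAW x hx) (le_of_lt hy.1)) n hover
    simp only [inter_univ] at s1
    exact mul_le_mul_of_nonneg_left s1 (by positivity)
  have hlim : Tendsto (fun k => c⁻¹ * (n * ν.real (cthickening (4 * ep k) W))) atTop (𝓝 (c⁻¹ * (n * ν.real W))) :=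
    (hlim2.const_mul _).const_mul _
  have hlt : c⁻¹ * (n * ν.real W) < c⁻¹ * (n + 1) * μ.real (f '' W) + δ := by
    rw [hνr]
    have h1 : 0 ≤ c⁻¹ * μ.real (f '' W) := mul_nonneg (by positivity) measureReal_nonneg
    have h2 : c⁻¹ * (n + 1) * μ.real (f '' W) = c⁻¹ * (n * μ.real (f '' W)) + c⁻¹ * μ.real (f '' W) := by ring
    rw [h2]
    linarith
  have hev : ∀ᶠ k in atTop, 4 * ep k ≤ diam (univ : Set Z) := by
    filter_upwards [(t04_ep_tendsto).eventually (gt_mem_nhds hD)] with k hk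
    exact le_of_lt hk
  filter_upwards [hev, hlim.eventually (gt_mem_nhds hlt)] with k h1 h2
  exact (hbound k h1).trans (le_of_lt h2)

end QSCoh
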