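import Pool.Agent.Lib.MP_cccab4_an.S07b

set_option autoImplicit false

/-!
# NB (80 lines): energy of `rk` over a set. MODEL: energy_rk in S07b (copy its proof with `V` for `closedBall x₀ r` and `W` for the larger ball)
-/

open MeasureTheory Metric Set Filter Topology
open scoped ENNReal NNReal

namespace QSCoh

variable {Z : Type*} [MetricSpace Z] [CompactSpace Z] [MeasurableSpace Z] [BorelSpace Z]
  {μ : Measure Z} {Q : ℝ}

theorem energy_rk_set (H : Sp Z μ Q) : ∃ C : ℝ, 0 < C ∧ ∀ (k : ℕ) (v : Z → Z), Continuous v →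
    ∀ V W : Set Z, MeasurableSet V → (∀ z ∈ V, ∀ p, dist z p < 2 * ep k → p ∈ W) →
    ∫⁻ z in V, rk k v z ^ Q ∂μ ≤ ENNReal.ofReal (C * Ek Q k W v) := by
  classical
  have hQ1 : 1 < Q := H.hQ
  have hQ : 0 < Q := by linarith
  obtain ⟨K, hK⟩ := net_overlap H
  obtain ⟨C, hC, hup⟩ := mass_upper H
  refine ⟨(K : ℝ) ^ (Q - 1) * (C * 2 ^ Q) + 1, by positivity, fun k v hv V W hV hVW => ?_⟩
  have hε := ep_pos k
  set ε := ep k with hεd
  set N := (net Z k).filter (· ∈ W) with hN
  set d : Z → ℝ := fun x => diam (v '' ball x (4 * ε)) with hd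
  have hd0 : ∀ x, 0 ≤ d x := fun x => diam_nonneg
  -- pointwise bound on the set
  have hpt : ∀ z ∈ V, rk k v z ^ Q ≤
      (K : ℝ≥0∞) ^ (Q - 1) * ∑ x ∈ N, ENNReal.ofReal (d x / ε) ^ Q *
        (ball x (2 * ε)).indicator 1 z := by
    intro z hz
    have h1 : rk k v z = ∑ x ∈ N, ENNReal.ofReal (d x / ε) * (ball x (2 * ε)).indicator 1 z := by
      unfold rk
      rw [hN, Finset.sum_filter]
      refine Finset.sum_congr rfl fun x _ => ?_
      by_cases h : x ∈ W
      · rw [if_pos h]
      · rw [if_neg h]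
        have h2 : z ∉ ball x (2 * ep k) := fun h2 => h (hVW z hz x (mem_ball.1 h2))
        simp [h2]
    rw [h1]
    refine sum_ind_rpow N _ _ K hQ1.le z ?_
    intro A hA hz'
    refine hK k z A (hA.trans (Finset.filter_subset _ _)) fun x hx => ?_
    have := mem_ball.1 (hz' x hx)
    linarith
  calc ∫⁻ z in V, rk k v z ^ Q ∂μ
      ≤ ∫⁻ z in V, (K : ℝ≥0∞) ^ (Q - 1) * ∑ x ∈ N, ENNReal.ofReal (d x / ε) ^ Q *
        (ball x (2 * ε)).indicator 1 z ∂μ :=
        setLIntegral_mono' hV hpt
    _ ≤ ∫⁻ z, (K : ℝ≥0∞) ^ (Q - 1) * ∑ x ∈ N, ENNReal.ofReal (d x / ε) ^ Q *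
        (ball x (2 * ε)).indicator 1 z ∂μ := setLIntegral_le_lintegral _ _
    _ = (K : ℝ≥0∞) ^ (Q - 1) * ∑ x ∈ N, ENNReal.ofReal (d x / ε) ^ Q * μ (ball x (2 * ε)) := by
        rw [lintegral_const_mul _ (Finset.measurable_sum _ fun x _ =>
          (measurable_one.indicator measurableSet_ball).const_mul _)]
        congr 1
        rw [lintegral_finsetSum _ fun x _ =>
          (measurable_one.indicator measurableSet_ball).const_mul _]
        refine Finset.sum_congr rfl fun x _ => ?_
        rw [lintegral_const_mul _ (measurable_one.indicator measurableSet_ball)]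
        congr 1
        exact lintegral_indicator_one measurableSet_ball
    _ ≤ (K : ℝ≥0∞) ^ (Q - 1) * ∑ x ∈ N, ENNReal.ofReal (C * 2 ^ Q * d x ^ Q) := by
        refine mul_le_mul_right (Finset.sum_le_sum fun x _ => ?_) _
        calc ENNReal.ofReal (d x / ε) ^ Q * μ (ball x (2 * ε))
            ≤ ENNReal.ofReal (d x / ε) ^ Q * ENNReal.ofReal (C * (2 * ε) ^ Q) :=
              mul_le_mul_right ((measure_mono ball_subset_closedBall).trans
                (hup x _ (by positivity))) _
          _ = ENNReal.ofReal (C * 2 ^ Q * d x ^ Q) := by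
              rw [ENNReal.ofReal_rpow_of_nonneg (div_nonneg (hd0 x) hε.le) hQ.le,
                ← ENNReal.ofReal_mul (by have := hd0 x; positivity)]
              congr 1
              rw [Real.div_rpow (hd0 x) hε.le, Real.mul_rpow (by norm_num) hε.le]
              field_simp
    _ = ENNReal.ofReal ((K : ℝ) ^ (Q - 1) * (C * 2 ^ Q) * ∑ x ∈ N, d x ^ Q) := by
        rw [← ENNReal.ofReal_sum_of_nonneg (fun x _ => by have := hd0 x; positivity),
          ← Finset.mul_sum, mul_assoc ((K : ℝ) ^ (Q - 1)),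
          ENNReal.ofReal_mul (by positivity : (0:ℝ) ≤ (K : ℝ) ^ (Q - 1))]
        congr 1
        rw [← ENNReal.ofReal_natCast, ENNReal.ofReal_rpow_of_nonneg (by positivity) (by linarith)]
    _ ≤ _ := by
        refine ENNReal.ofReal_le_ofReal ?_
        have h5 : ∑ x ∈ N, d x ^ Q = Ek Q k W v := by
          simp only [hN, hd, Ek, hεd]
        rw [h5]
        have := Ek_nonneg Q k v W
        nlinarith

end QSCoh
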