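import Mathlib

set_option autoImplicit false

/-!
# NC (90 lines): gliding hump

At every point `r i = r i * 1_{(U i)ᶜ} + r i * 1_{U i \ U (i+1)} + r i * 1_{U (i+1)}` =: `s i + d i + t i` (`hm`). `(x + y + z) ^ Q ≤ 3 ^ (Q-1) (x^Q + y^Q + z^Q)`
and `(∑ s i) ^ Q ≤ n ^ (Q-1) ∑ (s i) ^ Q` (`ENNReal.rpow_sum_le_const_mul_sum_rpow` for `Finset.range n`), so `(n⁻¹ ∑ s i) ^ Q ≤ n⁻¹ ∑ (s i) ^ Q` with integral
`≤ a` (`h1`), the same for `t i` (`h3`). The sets `U i \ U (i+1)` are disjoint (antitone), so at most one `d i` is not zero and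
`(∑ d i) ^ Q = ∑ (d i) ^ Q`, `n ^ (-Q) ∑ ∫ (d i) ^ Q ≤ n ^ (-Q) * n * M = n ^ (1-Q) * M` (`h2`). All in `ℝ≥0∞`; `n ≥ 1`.
-/

open MeasureTheory Set
open scoped ENNReal

namespace QSCoh

private theorem hump_ind {α : Type*} (S : Set α) (f : α → ℝ≥0∞) {Q : ℝ} (hQ : 0 < Q) (z : α) :
    (S.indicator f z) ^ Q = S.indicator (fun y => f y ^ Q) z := by
  by_cases h : z ∈ S
  · simp [h]
  · simp [h, ENNReal.zero_rpow_of_pos hQ]

private theorem hump_three {Q : ℝ} (hQ : 1 < Q) (x y w : ℝ≥0∞) :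
    (x + y + w) ^ Q ≤ 3 ^ (Q - 1) * (x ^ Q + y ^ Q + w ^ Q) := by
  have := ENNReal.rpow_sum_le_const_mul_sum_rpow (Finset.univ : Finset (Fin 3)) ![x, y, w] hQ.le
  simpa [Fin.sum_univ_three] using this

theorem hump {α : Type*} [MeasurableSpace α] (μ : Measure α) {Q : ℝ} (hQ : 1 < Q) {r : ℕ → α → ℝ≥0∞}
    (hr : ∀ i, Measurable (r i)) {U : ℕ → Set α} (hU : ∀ i, MeasurableSet (U i))
    (hm : ∀ i, U (i + 1) ⊆ U i) {V : Set α} (hV : MeasurableSet V) {a M : ℝ≥0∞}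
    (h1 : ∀ i, ∫⁻ z in V \ U i, r i z ^ Q ∂μ ≤ a) (h2 : ∀ i, ∫⁻ z in V, r i z ^ Q ∂μ ≤ M)
    (h3 : ∀ i, ∫⁻ z in V ∩ U (i + 1), r i z ^ Q ∂μ ≤ a) {n : ℕ} (hn : 1 ≤ n) :
    ∫⁻ z in V, ((n : ℝ≥0∞)⁻¹ * ∑ i ∈ Finset.range n, r i z) ^ Q ∂μ ≤
      3 ^ (Q - 1) * (2 * a + (n : ℝ≥0∞) ^ (1 - Q) * M) := by
  have hQ0 : 0 < Q := by linarith
  have hc0 : (n : ℝ≥0∞) ≠ 0 := by
    have : n ≠ 0 := by omega
    exact_mod_cast this
  have hct : (n : ℝ≥0∞) ≠ ∞ := ENNReal.natCast_ne_top n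
  have hanti : Antitone U := antitone_nat_of_succ_le hm
  set s : ℕ → α → ℝ≥0∞ := fun i => (U i)ᶜ.indicator (r i) with hs
  set d : ℕ → α → ℝ≥0∞ := fun i => (U i \ U (i + 1)).indicator (r i) with hd
  set t : ℕ → α → ℝ≥0∞ := fun i => (U (i + 1)).indicator (r i) with ht
  have hsplit : ∀ i z, r i z = s i z + d i z + t i z := by
    intro i z
    by_cases h : z ∈ U i
    · by_cases h' : z ∈ U (i + 1)
      · simp [hs, hd, ht, h, h']
      · simp [hs, hd, ht, h, h']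
    · have h' : z ∉ U (i + 1) := fun h' => h (hm i h')
      simp [hs, hd, ht, h, h']
  have hms : ∀ i, Measurable (s i) := fun i => (hr i).indicator (hU i).compl
  have hmd : ∀ i, Measurable (d i) := fun i => (hr i).indicator ((hU i).diff (hU (i + 1)))
  have hmt : ∀ i, Measurable (t i) := fun i => (hr i).indicator (hU (i + 1))
  have hmean : ∀ f : ℕ → ℝ≥0∞, ((n : ℝ≥0∞)⁻¹ * ∑ i ∈ Finset.range n, f i) ^ Q ≤
      ∑ i ∈ Finset.range n, (n : ℝ≥0∞)⁻¹ * f i ^ Q := by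
    intro f
    have h := ENNReal.rpow_arith_mean_le_arith_mean_rpow (Finset.range n)
      (fun _ => (n : ℝ≥0∞)⁻¹) f (by
        rw [Finset.sum_const, Finset.card_range, nsmul_eq_mul, ENNReal.mul_inv_cancel hc0 hct]) hQ.le
    rwa [← Finset.mul_sum] at h
  have hdsum : ∀ z, (∑ i ∈ Finset.range n, d i z) ^ Q = ∑ i ∈ Finset.range n, d i z ^ Q := by
    intro z
    by_cases h : ∃ j ∈ Finset.range n, z ∈ U j \ U (j + 1)
    · obtain ⟨j, hj, hz, hz'⟩ := h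
      have hne : ∀ i, i ≠ j → d i z = 0 := by
        intro i hij
        apply indicator_of_notMem
        rintro ⟨hi, hi'⟩
        rcases lt_or_gt_of_ne hij with hlt | hlt
        · exact hi' (hanti (Nat.succ_le_of_lt hlt) hz)
        · exact hz' (hanti (Nat.succ_le_of_lt hlt) hi)
      rw [Finset.sum_eq_single j (fun i _ hij => hne i hij) (fun h => absurd hj h),
        Finset.sum_eq_single j (fun i _ hij => by rw [hne i hij, ENNReal.zero_rpow_of_pos hQ0])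
          (fun h => absurd hj h)]
    · have hz : ∀ i ∈ Finset.range n, d i z = 0 := by
        intro i hi
        apply indicator_of_notMem
        exact fun hc => h ⟨i, hi, hc⟩
      rw [Finset.sum_eq_zero hz, ENNReal.zero_rpow_of_pos hQ0, Finset.sum_eq_zero]
      intro i hi
      rw [hz i hi, ENNReal.zero_rpow_of_pos hQ0]
  have hpt : ∀ z, ((n : ℝ≥0∞)⁻¹ * ∑ i ∈ Finset.range n, r i z) ^ Q ≤
      3 ^ (Q - 1) * ((∑ i ∈ Finset.range n, (n : ℝ≥0∞)⁻¹ * s i z ^ Q) +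
        (∑ i ∈ Finset.range n, (n : ℝ≥0∞) ^ (-Q) * d i z ^ Q) +
        (∑ i ∈ Finset.range n, (n : ℝ≥0∞)⁻¹ * t i z ^ Q)) := by
    intro z
    have e1 : (n : ℝ≥0∞)⁻¹ * ∑ i ∈ Finset.range n, r i z =
        (n : ℝ≥0∞)⁻¹ * (∑ i ∈ Finset.range n, s i z) + (n : ℝ≥0∞)⁻¹ * (∑ i ∈ Finset.range n, d i z) +
          (n : ℝ≥0∞)⁻¹ * (∑ i ∈ Finset.range n, t i z) := by
      rw [← mul_add, ← mul_add, ← Finset.sum_add_distrib, ← Finset.sum_add_distrib]
      congr 1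
      exact Finset.sum_congr rfl fun i _ => hsplit i z
    rw [e1]
    refine (hump_three hQ _ _ _).trans ?_
    gcongr
    · exact hmean fun i => s i z
    · rw [ENNReal.mul_rpow_of_nonneg _ _ hQ0.le, hdsum z, ← Finset.mul_sum, ENNReal.inv_rpow,
        ENNReal.rpow_neg]
    · exact hmean fun i => t i z
  have hms' : ∀ i, Measurable fun z => s i z ^ Q := fun i => (hms i).pow_const Q
  have hmd' : ∀ i, Measurable fun z => d i z ^ Q := fun i => (hmd i).pow_const Q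
  have hmt' : ∀ i, Measurable fun z => t i z ^ Q := fun i => (hmt i).pow_const Q
  have is : ∀ i, ∫⁻ z in V, s i z ^ Q ∂μ ≤ a := by
    intro i
    have e : (fun z => s i z ^ Q) = (U i)ᶜ.indicator fun y => r i y ^ Q := by
      funext z
      exact hump_ind _ _ hQ0 z
    rw [e, setLIntegral_indicator (hU i).compl, inter_comm]
    exact h1 i
  have it : ∀ i, ∫⁻ z in V, t i z ^ Q ∂μ ≤ a := by
    intro i
    have e : (fun z => t i z ^ Q) = (U (i + 1)).indicator fun y => r i y ^ Q := by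
      funext z
      exact hump_ind _ _ hQ0 z
    rw [e, setLIntegral_indicator (hU (i + 1)), inter_comm]
    exact h3 i
  have id' : ∀ i, ∫⁻ z in V, d i z ^ Q ∂μ ≤ M := by
    intro i
    refine (lintegral_mono fun z => ?_).trans (h2 i)
    exact ENNReal.rpow_le_rpow (indicator_le_self _ _ z) hQ0.le
  refine (lintegral_mono hpt).trans ?_
  have m1 : Measurable fun z => ∑ i ∈ Finset.range n, (n : ℝ≥0∞)⁻¹ * s i z ^ Q :=
    Finset.measurable_fun_sum _ fun i _ => (hms' i).const_mul _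
  have m2 : Measurable fun z => ∑ i ∈ Finset.range n, (n : ℝ≥0∞) ^ (-Q) * d i z ^ Q :=
    Finset.measurable_fun_sum _ fun i _ => (hmd' i).const_mul _
  have m3 : Measurable fun z => ∑ i ∈ Finset.range n, (n : ℝ≥0∞)⁻¹ * t i z ^ Q :=
    Finset.measurable_fun_sum _ fun i _ => (hmt' i).const_mul _
  have m12 : Measurable fun z => (∑ i ∈ Finset.range n, (n : ℝ≥0∞)⁻¹ * s i z ^ Q) +
      ∑ i ∈ Finset.range n, (n : ℝ≥0∞) ^ (-Q) * d i z ^ Q := m1.add m2
  have m123 : Measurable fun z => (∑ i ∈ Finset.range n, (n : ℝ≥0∞)⁻¹ * s i z ^ Q) +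
      (∑ i ∈ Finset.range n, (n : ℝ≥0∞) ^ (-Q) * d i z ^ Q) +
      ∑ i ∈ Finset.range n, (n : ℝ≥0∞)⁻¹ * t i z ^ Q := m12.add m3
  rw [lintegral_const_mul _ m123]
  gcongr
  rw [lintegral_add_left m12, lintegral_add_left m1,
    lintegral_finsetSum _ fun i _ => (hms' i).const_mul _,
    lintegral_finsetSum _ fun i _ => (hmd' i).const_mul _,
    lintegral_finsetSum _ fun i _ => (hmt' i).const_mul _]
  have b1 : ∑ i ∈ Finset.range n, ∫⁻ z in V, (n : ℝ≥0∞)⁻¹ * s i z ^ Q ∂μ ≤ a := by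
    calc ∑ i ∈ Finset.range n, ∫⁻ z in V, (n : ℝ≥0∞)⁻¹ * s i z ^ Q ∂μ
        ≤ ∑ i ∈ Finset.range n, (n : ℝ≥0∞)⁻¹ * a := by
          refine Finset.sum_le_sum fun i _ => ?_
          rw [lintegral_const_mul _ (hms' i)]
          gcongr
          exact is i
      _ = a := by
          rw [Finset.sum_const, Finset.card_range, nsmul_eq_mul, ← mul_assoc,
            ENNReal.mul_inv_cancel hc0 hct, one_mul]
  have b3 : ∑ i ∈ Finset.range n, ∫⁻ z in V, (n : ℝ≥0∞)⁻¹ * t i z ^ Q ∂μ ≤ a := by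
    calc ∑ i ∈ Finset.range n, ∫⁻ z in V, (n : ℝ≥0∞)⁻¹ * t i z ^ Q ∂μ
        ≤ ∑ i ∈ Finset.range n, (n : ℝ≥0∞)⁻¹ * a := by
          refine Finset.sum_le_sum fun i _ => ?_
          rw [lintegral_const_mul _ (hmt' i)]
          gcongr
          exact it i
      _ = a := by
          rw [Finset.sum_const, Finset.card_range, nsmul_eq_mul, ← mul_assoc,
            ENNReal.mul_inv_cancel hc0 hct, one_mul]
  have b2 : ∑ i ∈ Finset.range n, ∫⁻ z in V, (n : ℝ≥0∞) ^ (-Q) * d i z ^ Q ∂μ ≤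
      (n : ℝ≥0∞) ^ (1 - Q) * M := by
    calc ∑ i ∈ Finset.range n, ∫⁻ z in V, (n : ℝ≥0∞) ^ (-Q) * d i z ^ Q ∂μ
        ≤ ∑ i ∈ Finset.range n, (n : ℝ≥0∞) ^ (-Q) * M := by
          refine Finset.sum_le_sum fun i _ => ?_
          rw [lintegral_const_mul _ (hmd' i)]
          gcongr
          exact id' i
      _ = (n : ℝ≥0∞) ^ (1 - Q) * M := by
          rw [Finset.sum_const, Finset.card_range, nsmul_eq_mul, ← mul_assoc]
          congr 1
          rw [sub_eq_add_neg, ENNReal.rpow_add _ _ hc0 hct, ENNReal.rpow_one]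
  calc _ ≤ a + (n : ℝ≥0∞) ^ (1 - Q) * M + a := add_le_add (add_le_add b1 b2) b3
    _ = 2 * a + (n : ℝ≥0∞) ^ (1 - Q) * M := by ring

end QSCoh
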