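import Pool.Agent.Lib.MP_cccab4_an.S01
import Pool.Agent.Lib.MP_cccab4_an.S07b

set_option autoImplicit false

/-!
# ND (70 lines): choice of the scales and of the neighbourhoods

Recursion (a state is an open set containing `K`; start with `univ`). Step, for an open `U ⊇ K`: `k ≥ k₀` with `∫_{V \ U} rk k f ^ Q ≤ a` (`hen`,
`.and (eventually_ge_atTop k₀)`, `.exists`); the integral of `rk k f ^ Q` is finite (`rk_lt_top` with `A = univ`), so by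
`exists_pos_setLIntegral_lt_of_measure_lt` there is `δ > 0` such that `∫_A rk k f ^ Q < a` if `μ A < δ`; `K` is null, so there is an open
`U' ⊇ K` with `μ U' < δ` (`Set.exists_isOpen_lt_of_lt`, `finite_mu H`); the new set is `U ∩ U'`.
-/

open MeasureTheory Metric Set Filter Topology
open scoped ENNReal NNReal

namespace QSCoh

variable {Z : Type*} [MetricSpace Z] [CompactSpace Z] [MeasurableSpace Z] [BorelSpace Z]
  {μ : Measure Z} {Q : ℝ}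

theorem seqs (H : Sp Z μ Q) {f : Z → Z} (hc : Continuous f) {K : Set Z} (hK : IsCompact K) (hK0 : μ K = 0)
    {V : Set Z} {a : ℝ} (ha : 0 < a) (hen : ∀ U : Set Z, IsOpen U → K ⊆ U → ∀ᶠ k in atTop,
      ∫⁻ z in V \ U, rk k f z ^ Q ∂μ ≤ ENNReal.ofReal a) (k₀ : ℕ) :
    ∃ (κ : ℕ → ℕ) (U : ℕ → Set Z), (∀ i, k₀ ≤ κ i) ∧ (∀ i, IsOpen (U i)) ∧ (∀ i, U (i + 1) ⊆ U i) ∧
      (∀ i, ∫⁻ z in V \ U i, rk (κ i) f z ^ Q ∂μ ≤ ENNReal.ofReal a) ∧
      (∀ i, ∫⁻ z in V ∩ U (i + 1), rk (κ i) f z ^ Q ∂μ ≤ ENNReal.ofReal a) := by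
  have hfin := finite_mu H
  have step : ∀ U : {U : Set Z // IsOpen U ∧ K ⊆ U}, ∃ (k : ℕ) (U' : {U : Set Z // IsOpen U ∧ K ⊆ U}),
      k₀ ≤ k ∧ U'.1 ⊆ U.1 ∧ ∫⁻ z in V \ U.1, rk k f z ^ Q ∂μ ≤ ENNReal.ofReal a ∧
      ∫⁻ z in V ∩ U'.1, rk k f z ^ Q ∂μ ≤ ENNReal.ofReal a := by
    rintro ⟨U, hU, hKU⟩
    obtain ⟨k, h1, h2⟩ := ((hen U hU hKU).and (eventually_ge_atTop k₀)).exists
    have h3 : ∫⁻ z, rk k f z ^ Q ∂μ ≠ ∞ := by
      have := rk_lt_top H k f univ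
      rw [Measure.restrict_univ] at this
      exact this.ne
    obtain ⟨δ, hδ, h4⟩ := exists_pos_setLIntegral_lt_of_measure_lt h3 (ENNReal.ofReal_pos.2 ha).ne'
    obtain ⟨U', h5, h6, h7⟩ := K.exists_isOpen_lt_of_lt δ (by rw [hK0]; exact hδ)
    refine ⟨k, ⟨U ∩ U', hU.inter h6, subset_inter hKU h5⟩, h2, inter_subset_left, h1, ?_⟩
    refine (h4 _ (lt_of_le_of_lt (measure_mono ?_) h7)).le
    exact fun z hz => hz.2.2
  choose κf Uf hk hsub h1 h2 using step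
  obtain ⟨W, hW0⟩ : ∃ W : ℕ → {U : Set Z // IsOpen U ∧ K ⊆ U}, ∀ i, W (i + 1) = Uf (W i) :=
    ⟨fun n => Nat.rec ⟨univ, isOpen_univ, subset_univ _⟩ (fun _ U => Uf U) n, fun i => rfl⟩
  refine ⟨fun i => κf (W i), fun i => (W i).1, fun i => hk _, fun i => (W i).2.1, fun i => ?_, fun i => h1 _,
    fun i => ?_⟩
  · simp only [hW0]
    exact hsub _
  · simp only [hW0]
    exact h2 _

end QSCoh
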