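import Pool.Agent.Lib.MP_cccab4_an.S01
import Pool.Agent.Lib.MP_cccab4_an.S04

set_option autoImplicit false

/-!
# NE (50 lines): QS estimates at a ball

Take `B = η (4 * Λ) + 2 * η 3 + 1`. There is `p` with `dist x p = r / 2` (`sphere_pt`), so `p, x ∈ ball x r`.
(1) `dist x u ≤ 2 Λ r = 4 Λ dist x p`, so `dist (f x) (f u) ≤ η (4 Λ) * dist (f x) (f p)` (`QSg`), `dist (f x) (f p) ≤ diam (f '' ball x r)` (`f` has bounded image).
(2) `dist u w ≥ r/2 - r/8`, `dist u v ≤ r + r/8 = 3 (r/2 - r/8)` for `v ∈ ball x r`: `dist (f u) (f v) ≤ η 3 * dist (f u) (f w)`;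
`diam_le_of_forall_dist_le` with `2 * η 3 * dist (f u) (f w)`. (3) `0 < dist (f x) (f p) ≤ diam`.
-/

open MeasureTheory Metric Set Filter Topology
open scoped ENNReal NNReal

namespace QSCoh

variable {Z : Type*} [MetricSpace Z] [CompactSpace Z] [MeasurableSpace Z] [BorelSpace Z]
  {μ : Measure Z} {Q : ℝ}

theorem qs_ball (H : Sp Z μ Q) {f : Z → Z} (hc : Continuous f) (hi : Function.Injective f) {η : ℝ → ℝ}
    (hη : Gauge η) (hq : QSg η f) {Λ : ℝ} (hΛ : 1 ≤ Λ) : ∃ B : ℝ, 0 < B ∧ ∀ (x : Z) (r : ℝ), 0 < r →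
    r ≤ diam (univ : Set Z) →
    (∀ u, dist x u ≤ 2 * Λ * r → dist (f x) (f u) ≤ B * diam (f '' ball x r)) ∧
    (∀ u w, dist x u ≤ r / 8 → r / 2 ≤ dist x w → diam (f '' ball x r) ≤ B * dist (f u) (f w)) ∧
    0 < diam (f '' ball x r) := by
  refine ⟨η (4 * Λ) + 2 * η 3 + 1, by
    have h1 := hη.nonneg (4 * Λ)
    have h2 := hη.nonneg 3
    linarith, fun x r hr hrD => ?_⟩
  have e1 := hη.nonneg (4 * Λ)
  have e2 := hη.nonneg 3
  obtain ⟨p, hp⟩ := sphere_pt H x (r := r / 2) (by linarith) (by linarith)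
  have hb : Bornology.IsBounded (f '' ball x r) :=
    (isCompact_range hc).isBounded.subset (image_subset_range f _)
  have hpb : p ∈ ball x r := by
    rw [mem_ball, dist_comm, hp]
    linarith
  have d0 : dist (f x) (f p) ≤ diam (f '' ball x r) :=
    dist_le_diam_of_mem hb ⟨x, mem_ball_self hr, rfl⟩ ⟨p, hpb, rfl⟩
  have hdiam : 0 ≤ diam (f '' ball x r) := diam_nonneg
  refine ⟨fun u hu => ?_, fun u w hu hw => ?_, ?_⟩
  · have h1 := hq x u p (4 * Λ) (by rw [hp]; linarith)
    calc dist (f x) (f u) ≤ η (4 * Λ) * dist (f x) (f p) := h1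
      _ ≤ η (4 * Λ) * diam (f '' ball x r) := by gcongr
      _ ≤ (η (4 * Λ) + 2 * η 3 + 1) * diam (f '' ball x r) := by
        gcongr
        linarith
  · have h1 : 3 * r / 8 ≤ dist u w := by
      have := dist_triangle x u w
      linarith
    have h2 : ∀ v ∈ ball x r, dist (f u) (f v) ≤ η 3 * dist (f u) (f w) := by
      intro v hv
      refine hq u v w 3 ?_
      have h3 := dist_triangle u x v
      rw [dist_comm u x] at h3
      rw [mem_ball, dist_comm] at hv
      linarith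
    have h4 : (0 : ℝ) ≤ dist (f u) (f w) := dist_nonneg
    have h5 : diam (f '' ball x r) ≤ 2 * η 3 * dist (f u) (f w) := by
      refine diam_le_of_forall_dist_le (by positivity) ?_
      rintro _ ⟨v, hv, rfl⟩ _ ⟨v', hv', rfl⟩
      have h6 := h2 v hv
      have h7 := h2 v' hv'
      have h8 := dist_triangle (f v) (f u) (f v')
      rw [dist_comm (f v) (f u)] at h8
      linarith
    refine h5.trans ?_
    gcongr
    linarith
  · refine lt_of_lt_of_le (dist_pos.2 fun h => ?_) d0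
    have h9 := hi h
    rw [← h9, dist_self] at hp
    linarith

end QSCoh
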