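import Pool.Agent.Lib.MP_cccab4_an.S01
import Pool.Agent.Lib.MP_cccab4_an.S03
import Pool.Agent.Lib.MP_cccab4_an.TN.NE

set_option autoImplicit false

/-!
# NG (80 lines): density. MODEL: the part `hdens` of `star` in T03

`B` from `qs_ball`, `ρ = B * diam (f '' ball x r) > 0`, `f '' closedBall x (2 Λ r) ⊆ closedBall (f x) ρ`, `μ.real (closedBall (f x) ρ) ≤ C ρ ^ Q` (`mass_upper`; for all `ρ`, or for
`ρ ≤ diam univ` only, which holds for small `r`). `Dens μ (f '' K) (f x)` gives `μ.real (closedBall (f x) ρ \ f '' K) ≤ q * μ.real (closedBall (f x) ρ)` for `ρ < ρ₀` (as `hdens`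
in T03 with `f '' K` closed instead of `range f`), with `q` such that `q * C * B ^ Q ≤ ε`; `f '' (closedBall x (2 Λ r) \ K) ⊆ closedBall (f x) ρ \ f '' K` (`f` injective).
`diam (f '' ball x r) → 0` as `r → 0` (continuity of `f` at `x`), so `ρ < ρ₀` for `r < r₀`. `B' = C * B ^ Q`.
-/

open MeasureTheory Metric Set Filter Topology
open scoped ENNReal NNReal

namespace QSCoh

variable {Z : Type*} [MetricSpace Z] [CompactSpace Z] [MeasurableSpace Z] [BorelSpace Z]
  {μ : Measure Z} {Q : ℝ}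

theorem dens_small (H : Sp Z μ Q) {f : Z → Z} (hc : Continuous f) (hi : Function.Injective f) {η : ℝ → ℝ}
    (hη : Gauge η) (hq : QSg η f) {Λ : ℝ} (hΛ : 1 ≤ Λ) {K : Set Z} (hK : IsCompact K) {x : Z}
    (hd : Dens μ (f '' K) (f x)) : ∃ B : ℝ, 0 < B ∧ ∀ ε : ℝ, 0 < ε → ∃ r₀ > 0, ∀ r : ℝ, 0 < r → r < r₀ →
    μ.real (f '' (closedBall x (2 * Λ * r) \ K)) ≤ ε * diam (f '' ball x r) ^ Q ∧
    μ.real (f '' closedBall x (2 * Λ * r)) ≤ B * diam (f '' ball x r) ^ Q := by
  have := finite_mu H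
  have hQ : 0 < Q := by linarith [H.hQ]
  obtain ⟨C, hC, hup⟩ := mass_upper H
  obtain ⟨b, hb, hB⟩ := qs_ball H hc hi hη hq hΛ
  have hC0 : 0 < C := lt_of_lt_of_le one_pos hC
  have hbQ : 0 < b ^ Q := Real.rpow_pos_of_pos hb Q
  have hball : ∀ r : ℝ, 0 < r → r ≤ diam (univ : Set Z) →
      f '' closedBall x (2 * Λ * r) ⊆ closedBall (f x) (b * diam (f '' ball x r)) := by
    rintro r hr hrD _ ⟨u, hu, rfl⟩
    rw [mem_closedBall] at hu ⊢
    rw [dist_comm]
    exact (hB x r hr hrD).1 u (by rw [dist_comm]; exact hu)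
  refine ⟨C * b ^ Q, by positivity, fun ε hε => ?_⟩
  set q := ε / (C * b ^ Q) with hqdef
  have hqpos : 0 < q := by positivity
  obtain ⟨ρ₀, hρ₀, hdens⟩ : ∃ ρ₀ > 0, ∀ ρ, 0 < ρ → ρ < ρ₀ →
      μ.real (closedBall (f x) ρ \ f '' K) ≤ q * μ.real (closedBall (f x) ρ) := by
    have h1 : ∀ᶠ ρ in 𝓝[>] (0:ℝ), ENNReal.ofReal (1 - q) <
        μ (f '' K ∩ closedBall (f x) ρ) / μ (closedBall (f x) ρ) := by
      refine hd.eventually_const_lt ?_
      rw [ENNReal.ofReal_lt_one]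
      linarith
    obtain ⟨ρ₀, hρ₀, h2⟩ := (mem_nhdsGT_iff_exists_Ioo_subset).1 h1
    refine ⟨ρ₀, hρ₀, fun ρ hρ hρ' => ?_⟩
    have h3 : ENNReal.ofReal (1 - q) <
        μ (f '' K ∩ closedBall (f x) ρ) / μ (closedBall (f x) ρ) := h2 ⟨hρ, hρ'⟩
    have hrm : MeasurableSet (f '' K) := (hK.image hc).isClosed.measurableSet
    have hBpos : 0 < μ.real (closedBall (f x) ρ) :=
      (mass_ball_pos H (f x) hρ).trans_le (measureReal_mono ball_subset_closedBall)
    have h4 : 1 - q ≤ μ.real (f '' K ∩ closedBall (f x) ρ) / μ.real (closedBall (f x) ρ) := by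
      rw [Measure.real, Measure.real, ← ENNReal.toReal_div]
      refine (ENNReal.ofReal_le_iff_le_toReal ?_).1 h3.le
      exact (ENNReal.div_lt_top (measure_ne_top _ _)
        (ENNReal.toReal_pos_iff.1 hBpos).1.ne').ne
    rw [le_div_iff₀ hBpos] at h4
    have h5 := measureReal_inter_add_sdiff (μ := μ) (s := closedBall (f x) ρ) hrm
    rw [inter_comm] at h5
    linarith
  obtain ⟨δ, hδ, hcont⟩ := Metric.continuous_iff.1 hc x (ρ₀ / (4 * b))
    (div_pos hρ₀ (by linarith))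
  refine ⟨min δ (diam (univ : Set Z)), lt_min hδ H.hD, fun r hr hrr => ?_⟩
  have hrδ : r < δ := hrr.trans_le (min_le_left _ _)
  have hrD : r ≤ diam (univ : Set Z) := (hrr.trans_le (min_le_right _ _)).le
  have hd0 : 0 < diam (f '' ball x r) := (hB x r hr hrD).2.2
  have hdle : diam (f '' ball x r) ≤ ρ₀ / (2 * b) := by
    have h4b : ρ₀ / (4 * b) + ρ₀ / (4 * b) = ρ₀ / (2 * b) := by
      field_simp
      ring
    refine diam_le_of_forall_dist_le (div_pos hρ₀ (by linarith)).le ?_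
    rintro _ ⟨u, hu, rfl⟩ _ ⟨v, hv, rfl⟩
    have a1 := hcont u (lt_trans (mem_ball.1 hu) hrδ)
    have a2 := hcont v (lt_trans (mem_ball.1 hv) hrδ)
    have a3 := dist_triangle_right (f u) (f v) (f x)
    linarith
  have hρlt : b * diam (f '' ball x r) < ρ₀ := by
    have a1 : b * diam (f '' ball x r) ≤ b * (ρ₀ / (2 * b)) :=
      mul_le_mul_of_nonneg_left hdle hb.le
    have a2 : b * (ρ₀ / (2 * b)) = ρ₀ / 2 := by
      field_simp
    linarith
  have hρ0 : 0 < b * diam (f '' ball x r) := mul_pos hb hd0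
  have h1 := hdens _ hρ0 hρlt
  have h2 : μ.real (closedBall (f x) (b * diam (f '' ball x r))) ≤
      C * (b * diam (f '' ball x r)) ^ Q :=
    ENNReal.toReal_le_of_le_ofReal (by positivity) (hup _ _ hρ0)
  rw [Real.mul_rpow hb.le hd0.le] at h2
  constructor
  · have h3 : μ.real (f '' (closedBall x (2 * Λ * r) \ K)) ≤
        μ.real (closedBall (f x) (b * diam (f '' ball x r)) \ f '' K) := by
      refine measureReal_mono ?_
      rintro _ ⟨u, ⟨hu1, hu2⟩, rfl⟩
      refine ⟨hball r hr hrD ⟨u, hu1, rfl⟩, ?_⟩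
      rintro ⟨w, hw, e⟩
      exact hu2 (hi e ▸ hw)
    have h4 : q * μ.real (closedBall (f x) (b * diam (f '' ball x r))) ≤
        q * (C * (b ^ Q * diam (f '' ball x r) ^ Q)) :=
      mul_le_mul_of_nonneg_left h2 hqpos.le
    have h5 : q * (C * (b ^ Q * diam (f '' ball x r) ^ Q)) = ε * diam (f '' ball x r) ^ Q := by
      rw [hqdef]
      field_simp
    linarith
  · have h3 : μ.real (f '' closedBall x (2 * Λ * r)) ≤
        μ.real (closedBall (f x) (b * diam (f '' ball x r))) :=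
      measureReal_mono (hball r hr hrD)
    have h5 : C * (b ^ Q * diam (f '' ball x r) ^ Q) = C * b ^ Q * diam (f '' ball x r) ^ Q := by
      ring
    linarith

end QSCoh
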