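import Pool.Agent.Lib.MP_cccab4_an.TN.NA
import Pool.Agent.Lib.MP_cccab4_an.TN.NB

set_option autoImplicit false

/-!
# NH (70 lines): energies of `rk` outside `K` and on the whole ball, for large `k`

`C₁` from `low_energy`, `C₂` from `energy_rk_set`; `C = C₁ * C₂`. Let `V = closedBall x (Λ * r)`.
(1) `U ⊇ K` open: `V \ U` is compact and disjoint from `K`; there is `0 < τ ≤ Λ r` such that `W = cthickening τ (V \ U)` is disjoint from `K` (`K` is compact, `V \ U`
closed: `Disjoint.exists_cthickenings` or a positive distance); `W ⊆ closedBall x (2 Λ r) \ K` (`cthickening` of a subset of `closedBall x (Λ r)`; on a compact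
space points of `cthickening τ` are within `τ` of `V \ U`). For large `k`, `2 ep k ≤ τ`, so `z ∈ V \ U`, `dist z p < 2 ep k` give `p ∈ W`
(`mem_cthickening_of_dist_le`). `∫_{V \ U} rk^Q ≤ ofReal (C₂ Ek Q k W f) ≤ ofReal (C₂ (C₁ μ.real (f '' W) + δ / C₂))`.
(2) the same with `U = ∅` and `W = closedBall x (2 Λ r)`.
-/

open MeasureTheory Metric Set Filter Topology
open scoped ENNReal NNReal

namespace QSCoh

variable {Z : Type*} [MetricSpace Z] [CompactSpace Z] [MeasurableSpace Z] [BorelSpace Z]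
  {μ : Measure Z} {Q : ℝ}

private theorem nh_main {μ : Measure Z} [IsFiniteMeasure μ] {f : Z → Z} {C₁ C₂ : ℝ} (hC₁ : 0 < C₁) (hC₂ : 0 < C₂)
    (h1 : ∀ W : Set Z, IsClosed W → ∀ δ : ℝ, 0 < δ →
      ∀ᶠ k in atTop, Ek Q k W f ≤ C₁ * μ.real (f '' W) + δ)
    (h2 : ∀ (k : ℕ), ∀ V W : Set Z, MeasurableSet V →
      (∀ z ∈ V, ∀ p, dist z p < 2 * ep k → p ∈ W) →
      ∫⁻ z in V, rk k f z ^ Q ∂μ ≤ ENNReal.ofReal (C₂ * Ek Q k W f))
    {V T : Set Z} (hV : IsClosed V) {τ δ : ℝ} (hτ : 0 < τ) (hδ : 0 < δ)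
    (hT : cthickening τ V ⊆ T) :
    ∀ᶠ k in atTop, ∫⁻ z in V, rk k f z ^ Q ∂μ ≤
      ENNReal.ofReal (C₁ * C₂ * μ.real (f '' T) + δ) := by
  have hep : Tendsto (fun k => 2 * ep k) atTop (𝓝 0) := by
    have h := (tendsto_pow_atTop_nhds_zero_of_lt_one (r := (1 / 2 : ℝ)) (by norm_num)
      (by norm_num)).const_mul 2
    simpa [ep] using h
  filter_upwards [h1 (cthickening τ V) isClosed_cthickening (δ / C₂) (by positivity),
    hep.eventually (gt_mem_nhds hτ)] with k hk1 hk2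
  refine (h2 k V (cthickening τ V) hV.measurableSet ?_).trans ?_
  · intro z hz p hzp
    refine mem_cthickening_of_dist_le p z τ V hz ?_
    rw [dist_comm]
    linarith
  · apply ENNReal.ofReal_le_ofReal
    have h3 : μ.real (f '' cthickening τ V) ≤ μ.real (f '' T) :=
      measureReal_mono (image_mono hT)
    calc C₂ * Ek Q k (cthickening τ V) f
        ≤ C₂ * (C₁ * μ.real (f '' cthickening τ V) + δ / C₂) :=
          mul_le_mul_of_nonneg_left hk1 hC₂.le
      _ = C₁ * C₂ * μ.real (f '' cthickening τ V) + δ := by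
          field_simp
      _ ≤ C₁ * C₂ * μ.real (f '' T) + δ := by
          have h4 : C₁ * C₂ * μ.real (f '' cthickening τ V) ≤ C₁ * C₂ * μ.real (f '' T) :=
            mul_le_mul_of_nonneg_left h3 (by positivity)
          linarith

theorem rk_small (H : Sp Z μ Q) {f : Z → Z} (hc : Continuous f) (hi : Function.Injective f) {η : ℝ → ℝ}
    (hη : Gauge η) (hq : QSg η f) : ∃ C : ℝ, 0 < C ∧ ∀ {K : Set Z}, IsCompact K →
    ∀ (x : Z) (Λ r δ : ℝ), 1 ≤ Λ → 0 < r → 0 < δ →
    (∀ U : Set Z, IsOpen U → K ⊆ U → ∀ᶠ k in atTop, ∫⁻ z in closedBall x (Λ * r) \ U, rk k f z ^ Q ∂μ ≤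
      ENNReal.ofReal (C * μ.real (f '' (closedBall x (2 * Λ * r) \ K)) + δ)) ∧
    (∀ᶠ k in atTop, ∫⁻ z in closedBall x (Λ * r), rk k f z ^ Q ∂μ ≤
      ENNReal.ofReal (C * μ.real (f '' closedBall x (2 * Λ * r)) + δ)) := by
  haveI : IsFiniteMeasure μ := finite_mu H
  obtain ⟨C₁, hC₁, h1⟩ := low_energy H hc hi hη hq
  obtain ⟨C₂, hC₂, h2⟩ := energy_rk_set H
  refine ⟨C₁ * C₂, by positivity, ?_⟩
  intro K hK x Λ r δ hΛ hr hδ
  have hΛr : 0 < Λ * r := by positivity
  have hcth : ∀ V : Set Z, IsClosed V → V ⊆ closedBall x (Λ * r) →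
      cthickening (Λ * r) V ⊆ closedBall x (2 * Λ * r) := by
    intro V hV hVs p hp
    rw [hV.isCompact.cthickening_eq_biUnion_closedBall hΛr.le] at hp
    simp only [mem_iUnion, exists_prop] at hp
    obtain ⟨z, hz, hpz⟩ := hp
    have h3 := hVs hz
    rw [mem_closedBall] at h3 hpz ⊢
    have h4 := dist_triangle p z x
    linarith
  constructor
  · intro U hU hKU
    have hV : IsClosed (closedBall x (Λ * r) \ U) := isClosed_closedBall.sdiff hU
    obtain ⟨τ, hτ, hτK⟩ := hV.isCompact.exists_cthickening_subset_open hK.isClosed.isOpen_compl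
      (fun z hz hzK => hz.2 (hKU hzK))
    refine nh_main hC₁ hC₂ h1 (fun k => h2 k f hc) hV (τ := min τ (Λ * r)) (lt_min hτ hΛr) hδ ?_
    intro p hp
    refine ⟨hcth _ hV diff_subset (cthickening_mono (min_le_right _ _) _ hp), ?_⟩
    exact hτK (cthickening_mono (min_le_left _ _) _ hp)
  · exact nh_main hC₁ hC₂ h1 (fun k => h2 k f hc) isClosed_closedBall hΛr hδ
      (hcth _ isClosed_closedBall subset_rfl)

end QSCoh
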