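import Pool.Agent.Lib.MP_cccab4_an.S06
import Pool.Agent.Lib.MP_cccab4_an.S07a
import Pool.Agent.Lib.MP_cccab4_an.TN.NE

set_option autoImplicit false

/-!
# NI (70 lines): the averages of `rk` have large energy

`Λ, m` from `seed H` (S06: `SeedC μ Q Λ m`), `B` from `qs_ball` with this `Λ`. `d = diam (f '' ball x r) > 0`, `l = ofReal (d / (4 * B))`. Suppose
`∫_{closedBall x (Λ r)} ρ ^ Q < ofReal m * l ^ Q` with `ρ z = n⁻¹ * ∑_{i<n} rk (κ i) f z` (measurable: `measurable_rk`). The seed curve `γ` (length `L ≥ dist (γ 0) (γ L) ≥ r/2 - r/8`)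
has `∫ ρ (γ) ≤ l`, `∫ ρ(γ) = n⁻¹ ∑ ∫ rk (κ i) f (γ)` (`lintegral_finsetSum`, measurability of `rk ∘ γ`), so `∫ rk (κ i) f (γ) ≤ l` for some `i`. `osc_curve` (needs
`ep (κ i) / 2 ≤ L`: from `hk`): `edist (f (γ 0)) (f (γ L)) ≤ 2 l`, i.e. `dist ≤ d / (2 B)`; but `d ≤ B * dist (f (γ 0)) (f (γ L)) ≤ d / 2`:
contradiction. `c = ofReal m * (ofReal (1 / (4 B))) ^ Q`, i.e. real `c = m * (1 / (4 * B)) ^ Q`.
-/

open MeasureTheory Metric Set Filter Topology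
open scoped ENNReal NNReal

namespace QSCoh

variable {Z : Type*} [MetricSpace Z] [CompactSpace Z] [MeasurableSpace Z] [BorelSpace Z]
  {μ : Measure Z} {Q : ℝ}

theorem rk_large (H : Sp Z μ Q) : ∃ Λ : ℝ, 1 ≤ Λ ∧ ∀ {f : Z → Z}, Continuous f → Function.Injective f →
    ∀ {η : ℝ → ℝ}, Gauge η → QSg η f → ∃ c : ℝ, 0 < c ∧ ∀ (x : Z) (r : ℝ), 0 < r →
    r ≤ diam (univ : Set Z) / 2 → ∀ (κ : ℕ → ℕ), (∀ i, ep (κ i) ≤ r / 2) → ∀ n : ℕ, 1 ≤ n →
    ENNReal.ofReal (c * diam (f '' ball x r) ^ Q) ≤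
      ∫⁻ z in closedBall x (Λ * r), ((n : ℝ≥0∞)⁻¹ * ∑ i ∈ Finset.range n, rk (κ i) f z) ^ Q ∂μ := by
  obtain ⟨Λ, m, hΛ, hm, hS⟩ := seed H
  refine ⟨Λ, hΛ, ?_⟩
  intro f hf hi η hη hq
  obtain ⟨B, hB, hball⟩ := qs_ball H hf hi hη hq hΛ
  have hQ := H.hQ
  have hD := H.hD
  refine ⟨m * (1 / (4 * B)) ^ Q, by positivity, ?_⟩
  intro x r hr hrD κ hκ n hn
  obtain ⟨-, h2, hd⟩ := hball x r hr (by linarith)
  by_contra hcon
  push Not at hcon
  set d := diam (f '' ball x r) with hddef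
  have hl0 : (0 : ℝ) < d / (4 * B) := by positivity
  have hρm : Measurable (fun z => (n : ℝ≥0∞)⁻¹ * ∑ i ∈ Finset.range n, rk (κ i) f z) :=
    (Finset.measurable_sum _ fun i _ => measurable_rk (κ i) f).const_mul _
  obtain ⟨γ, L, hγ⟩ := hS x r hr hrD _ hρm (ENNReal.ofReal (d / (4 * B)))
    (ENNReal.ofReal_pos.2 hl0) ENNReal.ofReal_ne_top (by
      refine hcon.trans_le (le_of_eq ?_)
      rw [ENNReal.ofReal_rpow_of_pos hl0, ← ENNReal.ofReal_mul hm.le]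
      congr 1
      rw [show d / (4 * B) = (1 / (4 * B)) * d by ring,
        Real.mul_rpow (by positivity) (by positivity)]
      ring)
  have h3 : dist (γ 0) (γ L) ≤ L := by
    have := hγ.lip.dist_le_mul 0 L
    simpa [Real.dist_eq, abs_of_nonneg hγ.nonneg] using this
  have h4 := dist_triangle x (γ 0) (γ L)
  have h5 := hγ.start
  have h6 := hγ.stop
  have hi : ∀ i, ENNReal.ofReal (d / B) ≤ 2 * ∫⁻ t in Icc 0 L, rk (κ i) f (γ t) := by
    intro i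
    have h7 := osc_curve hf (κ i) hγ.lip (by have := hκ i; linarith) (s := 0) (t := L)
      ⟨le_rfl, hγ.nonneg⟩ ⟨hγ.nonneg, le_rfl⟩
    refine le_trans ?_ h7
    rw [edist_dist]
    refine ENNReal.ofReal_le_ofReal ?_
    rw [div_le_iff₀ hB]
    have := h2 _ _ h5 h6
    linarith
  have hsum : ∫⁻ t in Icc 0 L, ((n : ℝ≥0∞)⁻¹ * ∑ i ∈ Finset.range n, rk (κ i) f (γ t)) =
      (n : ℝ≥0∞)⁻¹ * ∑ i ∈ Finset.range n, ∫⁻ t in Icc 0 L, rk (κ i) f (γ t) := by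
    have hmi : ∀ i, Measurable (fun t => rk (κ i) f (γ t)) := fun i =>
      (measurable_rk (κ i) f).comp hγ.lip.continuous.measurable
    rw [lintegral_const_mul _ (Finset.measurable_sum _ fun i _ => hmi i),
      lintegral_finsetSum _ fun i _ => hmi i]
  have h8 : (n : ℝ≥0∞)⁻¹ * ∑ i ∈ Finset.range n, ∫⁻ t in Icc 0 L, rk (κ i) f (γ t) ≤
      ENNReal.ofReal (d / (4 * B)) := by
    rw [← hsum]
    exact hγ.int
  have hn0 : (n : ℝ≥0∞) ≠ 0 := by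
    simp only [ne_eq, Nat.cast_eq_zero]
    omega
  have h9 : ENNReal.ofReal (d / B) ≤ 2 * ENNReal.ofReal (d / (4 * B)) := by
    calc ENNReal.ofReal (d / B)
        = (n : ℝ≥0∞)⁻¹ * ∑ i ∈ Finset.range n, ENNReal.ofReal (d / B) := by
          rw [Finset.sum_const, Finset.card_range, nsmul_eq_mul, ← mul_assoc,
            ENNReal.inv_mul_cancel hn0 (ENNReal.natCast_ne_top n), one_mul]
      _ ≤ (n : ℝ≥0∞)⁻¹ * ∑ i ∈ Finset.range n, 2 * ∫⁻ t in Icc 0 L, rk (κ i) f (γ t) :=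
          mul_le_mul_right (Finset.sum_le_sum fun i _ => hi i) _
      _ = 2 * ((n : ℝ≥0∞)⁻¹ * ∑ i ∈ Finset.range n, ∫⁻ t in Icc 0 L, rk (κ i) f (γ t)) := by
          rw [← Finset.mul_sum, mul_left_comm]
      _ ≤ 2 * ENNReal.ofReal (d / (4 * B)) := mul_le_mul_right h8 _
  have h10 : (2 : ℝ≥0∞) * ENNReal.ofReal (d / (4 * B)) = ENNReal.ofReal (2 * (d / (4 * B))) := by
    rw [ENNReal.ofReal_mul (by norm_num)]
    simp
  rw [h10, ENNReal.ofReal_le_ofReal_iff (by positivity)] at h9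
  have h11 : d / B = 4 * (d / (4 * B)) := by
    field_simp
  linarith

end QSCoh
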