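import Pool.Agent.Lib.MP_cccab4_an.TN.NC
import Pool.Agent.Lib.MP_cccab4_an.TN.ND
import Pool.Agent.Lib.MP_cccab4_an.TN.NG
import Pool.Agent.Lib.MP_cccab4_an.TN.NH
import Pool.Agent.Lib.MP_cccab4_an.TN.NI

set_option autoImplicit false

/-!
# NJ (100 lines): images of null compact sets have no points of density

`Λ, c` from `rk_large`, `B` from `dens_small`, `C` from `rk_small`. Choose `ε > 0` with `3 ^ (Q-1) * (2 * (C * ε + ε)) ≤ c / 4` and `n ≥ 1` with
`3 ^ (Q-1) * n ^ (1-Q) * (C * B + ε) ≤ c / 4` (`Q > 1`). `r₀` from `dens_small`, `r = min (r₀/2) (diam univ / 2)`, `d = diam (f '' ball x r) > 0` (`qs_ball`),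
`δ = ε * d ^ Q`. `seqs` with `V = closedBall x (Λ r)`, `a = (C * ε + ε) * d ^ Q` (`hen` from `rk_small`, monotone), `k₀` such that `ep k ≤ r / 2` and the
second bound of `rk_small` hold for `k ≥ k₀`. `hump` with `M = ofReal ((C * B + ε) * d ^ Q)`. Together with `rk_large`:
`c * d ^ Q ≤ (c/4 + c/4) * d ^ Q`: contradiction.
-/

open MeasureTheory Metric Set Filter Topology
open scoped ENNReal NNReal

namespace QSCoh

variable {Z : Type*} [MetricSpace Z] [CompactSpace Z] [MeasurableSpace Z] [BorelSpace Z]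
  {μ : Measure Z} {Q : ℝ}

theorem no_dens (H : Sp Z μ Q) {f : Z → Z} (hc : Continuous f) (hi : Function.Injective f) {η : ℝ → ℝ}
    (hη : Gauge η) (hq : QSg η f) {K : Set Z} (hK : IsCompact K) (hK0 : μ K = 0) (x : Z) :
    ¬ Dens μ (f '' K) (f x) := by
  intro hd
  obtain ⟨Λ, hΛ, hlarge⟩ := rk_large H
  obtain ⟨c, hc0, hL⟩ := hlarge hc hi hη hq
  obtain ⟨C, hC0, hS⟩ := rk_small H hc hi hη hq
  obtain ⟨B, hB0, hds⟩ := dens_small H hc hi hη hq hΛ hK hd
  obtain ⟨Bq, -, hqs⟩ := qs_ball H hc hi hη hq hΛ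
  have hQ := H.hQ
  have hD0 := H.hD
  set T : ℝ := (3 : ℝ) ^ (Q - 1) with hT
  have hT0 : 0 < T := by rw [hT]; positivity
  obtain ⟨ε, hε, hεc⟩ : ∃ ε : ℝ, 0 < ε ∧ T * (2 * (C * ε + ε)) = c / 4 := by
    refine ⟨c / (8 * T * (C + 1)), by positivity, ?_⟩
    field_simp
    ring
  -- the number of scales
  have hlim : Tendsto (fun n : ℕ => T * (C * B + ε) * (n : ℝ) ^ (-(Q - 1))) atTop (𝓝 0) := by
    have h := (tendsto_rpow_neg_atTop (y := Q - 1) (by linarith)).comp tendsto_natCast_atTop_atTop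
    have h' := h.const_mul (T * (C * B + ε))
    rw [mul_zero] at h'
    exact h'
  have hev : ∀ᶠ n : ℕ in atTop, T * (C * B + ε) * (n : ℝ) ^ (-(Q - 1)) < c / 4 :=
    hlim.eventually (gt_mem_nhds (by positivity))
  obtain ⟨n, hn, hn1⟩ := (hev.and (eventually_ge_atTop 1)).exists
  obtain ⟨r₀, hr₀, hds'⟩ := hds ε hε
  set r : ℝ := min (r₀ / 2) (diam (univ : Set Z) / 2) with hrdef
  have hr : 0 < r := lt_min (by linarith) (by linarith)
  have hr1 : r < r₀ := (min_le_left _ _).trans_lt (by linarith)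
  have hr2 : r ≤ diam (univ : Set Z) / 2 := min_le_right _ _
  have hd0 : 0 < diam (f '' ball x r) := (hqs x r hr (by linarith)).2.2
  set D : ℝ := diam (f '' ball x r) ^ Q with hDdef
  have hDp : 0 < D := by rw [hDdef]; positivity
  obtain ⟨e1, e2⟩ := hds' r hr hr1
  obtain ⟨s1, s2⟩ := hS hK x Λ r (ε * D) hΛ hr (by positivity)
  have ha : 0 < (C * ε + ε) * D := by positivity
  have hen : ∀ U : Set Z, IsOpen U → K ⊆ U → ∀ᶠ k in atTop,
      ∫⁻ z in closedBall x (Λ * r) \ U, rk k f z ^ Q ∂μ ≤ ENNReal.ofReal ((C * ε + ε) * D) := by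
    intro U hU hKU
    refine (s1 U hU hKU).mono fun k h => h.trans (ENNReal.ofReal_le_ofReal ?_)
    have := mul_le_mul_of_nonneg_left e1 hC0.le
    linarith
  have hep : ∀ᶠ k : ℕ in atTop, ep k ≤ r / 2 := by
    have h : Tendsto ep atTop (𝓝 0) := by
      unfold ep
      exact tendsto_pow_atTop_nhds_zero_of_lt_one (by norm_num) (by norm_num)
    exact (h.eventually (gt_mem_nhds (half_pos hr))).mono fun k hk => hk.le
  obtain ⟨k₀, hk₀⟩ := eventually_atTop.1 (s2.and hep)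
  obtain ⟨κ, U, h1, h2, h3, h4, h5⟩ := seqs H hc hK hK0 ha hen k₀
  have hM : ∀ i, ∫⁻ z in closedBall x (Λ * r), rk (κ i) f z ^ Q ∂μ ≤ ENNReal.ofReal ((C * B + ε) * D) := by
    intro i
    refine (hk₀ (κ i) (h1 i)).1.trans (ENNReal.ofReal_le_ofReal ?_)
    have := mul_le_mul_of_nonneg_left e2 hC0.le
    linarith
  have hh := hump μ hQ (r := fun i => rk (κ i) f) (fun i => measurable_rk _ _) (U := U)
    (fun i => (h2 i).measurableSet) h3 isClosed_closedBall.measurableSet h4 hM h5 hn1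
  have hl := hL x r hr hr2 κ (fun i => (hk₀ (κ i) (h1 i)).2) n hn1
  have hfin := hl.trans hh
  have hnp : (0 : ℝ) < n := by exact_mod_cast hn1
  have c3 : (3 : ℝ≥0∞) ^ (Q - 1) = ENNReal.ofReal T := by
    rw [hT, ← ENNReal.ofReal_rpow_of_pos (by norm_num)]
    norm_num
  have cn : (n : ℝ≥0∞) ^ (1 - Q) = ENNReal.ofReal ((n : ℝ) ^ (1 - Q)) := by
    rw [← ENNReal.ofReal_rpow_of_pos hnp, ENNReal.ofReal_natCast]
  have c2 : (2 : ℝ≥0∞) = ENNReal.ofReal 2 := by norm_num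
  have hnn : 0 ≤ (n : ℝ) ^ (1 - Q) := by positivity
  rw [c3, cn, c2, ← ENNReal.ofReal_mul (by norm_num), ← ENNReal.ofReal_mul hnn,
    ← ENNReal.ofReal_add (by positivity) (by positivity), ← ENNReal.ofReal_mul hT0.le,
    ENNReal.ofReal_le_ofReal_iff (by positivity)] at hfin
  have hneg : (n : ℝ) ^ (-(Q - 1)) = (n : ℝ) ^ (1 - Q) := by congr 1; ring
  rw [hneg] at hn
  have k1 : T * (2 * ((C * ε + ε) * D)) = c / 4 * D := by rw [← hεc]; ring
  have k2 : T * ((n : ℝ) ^ (1 - Q) * ((C * B + ε) * D)) ≤ c / 4 * D := by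
    have := mul_le_mul_of_nonneg_right hn.le hDp.le
    calc T * ((n : ℝ) ^ (1 - Q) * ((C * B + ε) * D))
        = T * (C * B + ε) * (n : ℝ) ^ (1 - Q) * D := by ring
      _ ≤ c / 4 * D := this
  have k3 : 0 < c * D := by positivity
  rw [mul_add, k1] at hfin
  linarith

end QSCoh
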