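import Pool.Agent.Lib.MP_cccab4_an.TN.NJ
import Pool.Agent.Lib.MP_cccab4_an.S03

set_option autoImplicit false

/-!
# NK (50 lines): Lusin's condition (N)

`A' = toMeasurable μ A`, `μ A' = 0`; `f` is a measurable embedding (`(hc.isClosedEmbedding hi).measurableEmbedding`), `f '' A'` is measurable. If `μ (f '' A') ≠ 0` there is a compact
`K' ⊆ f '' A'` with `0 < μ K'` (`MeasurableSet.exists_lt_isCompact_of_ne_top`, `finite_mu H`). `K = f ⁻¹' K'` is closed, so compact, `f '' K = K'`,
`K ⊆ A'` (`f` injective), so `μ K = 0`. `dens_ae H` for the closed set `K'`: some `y ∈ K'`, `y = f x`, has `Dens μ K' y`: contradiction to `no_dens`.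
-/

open MeasureTheory Metric Set Filter Topology
open scoped ENNReal NNReal

namespace QSCoh

variable {Z : Type*} [MetricSpace Z] [CompactSpace Z] [MeasurableSpace Z] [BorelSpace Z]
  {μ : Measure Z} {Q : ℝ}

theorem lusin (H : Sp Z μ Q) {f : Z → Z} (hc : Continuous f) (hi : Function.Injective f) {η : ℝ → ℝ}
    (hη : Gauge η) (hq : QSg η f) {A : Set Z} (hA : μ A = 0) : μ (f '' A) = 0 := by
  have := finite_mu H
  by_contra hne
  have hA' : μ (toMeasurable μ A) = 0 := by rw [measure_toMeasurable]; exact hA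
  have hme : MeasurableEmbedding f := (hc.isClosedEmbedding hi).measurableEmbedding
  have hm : MeasurableSet (f '' toMeasurable μ A) := hme.measurableSet_image.2 (measurableSet_toMeasurable μ A)
  have h1 : μ (f '' toMeasurable μ A) ≠ 0 := fun h =>
    hne (measure_mono_null (image_mono (subset_toMeasurable μ A)) h)
  obtain ⟨K', hKs, hKc, hK0⟩ := hm.exists_lt_isCompact_of_ne_top (measure_ne_top _ _) (pos_iff_ne_zero.2 h1)
  have hKc' : IsCompact (f ⁻¹' K') := (hKc.isClosed.preimage hc).isCompact
  have hfK : f '' (f ⁻¹' K') = K' := image_preimage_eq_of_subset (hKs.trans (image_subset_range _ _))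
  have hKA : f ⁻¹' K' ⊆ toMeasurable μ A := by
    intro x hx
    obtain ⟨x', hx', e⟩ := hKs hx
    rwa [← hi e]
  have hK0' : μ (f ⁻¹' K') = 0 := measure_mono_null hKA hA'
  have hd := dens_ae H hKc.isClosed
  have hex : ∃ y ∈ K', Dens μ K' y := by
    by_contra hno
    push Not at hno
    refine hK0.ne' (measure_mono_null ?_ (ae_iff.1 hd))
    intro y hy h
    exact hno y hy (h hy)
  obtain ⟨y, hy, hyd⟩ := hex
  obtain ⟨x, -, rfl⟩ := hKs hy
  rw [← hfK] at hyd
  exact no_dens H hc hi hη hq hKc' hK0' x hyd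

end QSCoh
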