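import Pool.Agent.Lib.MP_cccab4_an.TM.W7
import Pool.Agent.Lib.MP_cccab4_an.P03

set_option autoImplicit false

/-!
# TNF: the tangent form with an ideal of null sets, for Loewner spaces (as TF)
-/

open MeasureTheory Metric Set Filter Topology
open scoped ENNReal NNReal

namespace QSCoh

/-- The tangent form for a metric space `Z` and a family `N` of sets. -/
def TFormN (Z : Type*) [MetricSpace Z] (N : Set Z → Prop) : Prop :=
  ∀ (S G : Set (Z → Z)) (δ : ℝ) (θ : ℝ≥0 ≃ₜ ℝ≥0), 0 < δ → (∀ f ∈ S, IsQSEmb f) →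
    (∀ f ∈ S, ∀ g ∈ S, f ∘ g ∈ S) → G ⊆ S → id ∈ G → (∀ f ∈ G, ∀ g ∈ G, f ∘ g ∈ G) →
    (∀ g ∈ G, ∃ g' ∈ G, g ∘ g' = id ∧ g' ∘ g = id) →
    (∀ x y z : Z, x ≠ y → x ≠ z → y ≠ z → ∃ h ∈ G, δ ≤ dist (h x) (h y) ∧ δ ≤ dist (h x) (h z) ∧
      δ ≤ dist (h y) (h z)) →
    (∀ g ∈ G, IsQMob θ g) →
    (∀ f ∈ S, ∃ B : Set Z, N (f '' B) ∧ ∀ x, x ∉ B → ∀ φ : Z ≃ₜ Z, Tan G f x φ → IsQMob θ φ) →
    ∀ f ∈ S, Function.Surjective f

theorem tformN_loewner {Z : Type*} [MetricSpace Z] [CompactSpace Z] [MeasurableSpace Z]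
    [BorelSpace Z] {Q : ℝ} (h : IsLoewner Q Z) : TFormN Z (fun A => μH[Q] A = 0) := by
  intro S G δ θ hδ hqs hcomp hsub hid hGcomp hGinv htri hGq hlim
  by_cases hss : Subsingleton Z
  · intro f hf y
    exact ⟨y, Subsingleton.elim _ _⟩
  rw [not_subsingleton_iff_nontrivial] at hss
  obtain ⟨a, b, hab⟩ := exists_pair_ne Z
  have hbdd : Bornology.IsBounded (univ : Set Z) := isBounded_of_compactSpace
  have hD : 0 < diam (univ : Set Z) :=
    lt_of_lt_of_le (dist_pos.mpr hab) (dist_le_diam_of_mem hbdd (mem_univ a) (mem_univ b))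
  have H : Sp Z μH[Q] Q := by
    refine ⟨h.one_lt, hD, ?_, h.rectConn, ?_⟩
    · obtain ⟨C, hC, hC2⟩ := h.ahlfors
      refine ⟨C, hC, fun x r hr hrD => hC2 x r hr ?_⟩
      exact ENNReal.ofReal_le_of_le_toReal hrD
    · obtain ⟨φ, hφ, hφ2⟩ := h.loewner
      exact loew_path hφ hφ2
  obtain ⟨θ₀, hθ₀, hq⟩ := qmob_gauge (X := Z) (Y := Z) θ
  have hqmS : ∀ f ∈ S, ∃ θ, Gauge θ ∧ QM θ f := by
    intro f hf
    obtain ⟨-, hi, η, hη, hqf⟩ := qs_gauge (hqs f hf)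
    obtain ⟨θf, hθf, hqm⟩ := qs_qm (X := Z) (Y := Z) hη
    exact ⟨θf, hθf, hqm f hi hqf⟩
  have hGQ : ∀ g ∈ G, QM θ₀ g := fun g hg => hq g (qs_gauge (hqs g (hsub hg))).2.1 (hGq g hg)
  have hhom : ∀ φ : Z → Z, Continuous φ → Function.Bijective φ → ∃ e : Z ≃ₜ Z, (e : Z → Z) = φ := by
    intro φ hφc hbij
    let E : Z ≃ Z := Equiv.ofBijective φ hbij
    have hE : Continuous E := hφc
    exact ⟨hE.homeoOfEquivCompactToT2, rfl⟩
  have hK : Sg Z G G δ θ₀ := by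
    refine ⟨hδ, hθ₀, hid, fun _ h => h, hGcomp, fun f hf => (hqs f (hsub hf)).1.continuous,
      fun f hf => (qs_gauge (hqs f (hsub hf))).2.2, fun f hf => hqmS f (hsub hf), hGinv,
      hGcomp, htri, ?_⟩
    intro f hf g k hg hk φ hφ hbij
    exact qm_limit (fun j => hGQ _ (hGcomp _ (hg j) _ (hGcomp _ hf _ (hk j))))
      (fun x => hφ.tendsto_at x) hbij.injective
  have K : Sgw Z μH[Q] S G δ θ₀ := by
    refine ⟨hK, hsub, hcomp, fun f hf => (hqs f hf).1.continuous,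
      fun f hf => (qs_gauge (hqs f hf)).2.2, hqmS, ?_⟩
    intro f hf
    obtain ⟨B, hB, hBt⟩ := hlim f hf
    refine ⟨B, hB, ?_⟩
    · intro x hx φ hφ hbij
      have hφ' := hφ
      obtain ⟨g, k, k', hg, hk, hk', e1, e2, hcon, hlimu⟩ := hφ'
      have hφc : Continuous φ := by
        refine hlimu.continuous (Frequently.of_forall fun j => ?_)
        exact (hqs _ (hsub (hg j))).1.continuous.comp
          ((hqs f hf).1.continuous.comp (hqs _ (hsub (hk' j))).1.continuous)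
      obtain ⟨e, he⟩ := hhom φ hφc hbij
      have h1 := hBt x hx e (by rw [he]; exact hφ)
      have h2 := hq e e.injective h1
      rw [he] at h2
      exact h2
  exact W.count H K

end QSCoh
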