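import Pool.Agent.Lib.MP_cccab4_an.TN.TNR
import Pool.Agent.Lib.MP_cccab4_an.TN.NK
import Pool.Agent.Lib.MP_cccab4_an.TM.GT
import Pool.Agent.Lib.MP_cccab4_an.TM.CH
import Pool.Agent.Lib.MP_cccab4_an.P04
import Pool.Agent.Lib.MP_cccab4_an.G04
import Pool.Agent.Lib.MP_cccab4_an.G05
import Pool.Agent.Lib.MP_cccab4_an.G06

set_option autoImplicit false

/-!
# TNG: embeddings with tangent maps in a closed group of uniformly quasi-Möbius homeomorphisms almost everywhere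
-/

open MeasureTheory Metric Set Filter Topology
open scoped ENNReal NNReal

namespace QSCoh

universe u

theorem tangentN_main {X : Type u} [MetricSpace X] [CompactSpace X] {N : Set X → Prop} (hF : TFormN X N)
    (hN0 : N ∅) (hNm : ∀ A B, A ⊆ B → N B → N A) (hNu : ∀ A B, N A → N B → N (A ∪ B))
    (hNf : ∀ f : X → X, IsQSEmb f → ∀ A, N A → N (f '' A)) {G : Set (X → X)}
    {δ : ℝ} {θ : ℝ≥0 ≃ₜ ℝ≥0} (hδ : 0 < δ) (hid : id ∈ G) (hcomp : ∀ f ∈ G, ∀ g ∈ G, f ∘ g ∈ G)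
    (hinv : ∀ g ∈ G, ∃ g' ∈ G, g ∘ g' = id ∧ g' ∘ g = id)
    (hco : ∀ x y z : X, x ≠ y → x ≠ z → y ≠ z → ∃ h ∈ G, δ ≤ dist (h x) (h y) ∧ δ ≤ dist (h x) (h z) ∧
      δ ≤ dist (h y) (h z))
    (H : Set (X ≃ₜ X)) (hHc : ∀ φ ∈ H, ∀ ψ ∈ H, ψ.trans φ ∈ H) (hHG : ∀ g ∈ G, ∃ φ ∈ H, (φ : X → X) = g)
    (hHq : ∀ φ ∈ H, IsQMob θ φ)
    (hHl : ∀ φ : X ≃ₜ X, (∃ F : ℕ → X ≃ₜ X, (∀ j, F j ∈ H) ∧
      TendstoUniformly (fun j => (F j : X → X)) φ atTop) → φ ∈ H)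
    {f : X → X} (hf : IsQSEmb f) {B : Set X} (hB : N (f '' B))
    (ht : ∀ x, x ∉ B → ∀ φ : X ≃ₜ X, Tan G f x φ → φ ∈ H) : Function.Surjective f := by
  by_cases h3 : ∀ p q : X, ∃ y, y ≠ p ∧ y ≠ q
  swap
  · push Not at h3
    obtain ⟨p, q, hpq⟩ := h3
    have hfin : Finite X := by
      have : (univ : Set X) ⊆ {p, q} := fun y _ => by
        by_cases h : y = p
        · exact Or.inl h
        · exact Or.inr (hpq y h)
      exact Set.finite_univ_iff.1 ((Set.toFinite ({p, q} : Set X)).subset this)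
    exact Finite.injective_iff_surjective.1 hf.1.injective
  obtain ⟨θ₀, hθ₀, hq⟩ := qmob_gauge (X := X) (Y := X) θ
  have hGQ : ∀ g ∈ G, QM θ₀ g := by
    intro g hg
    obtain ⟨φ, hφ, rfl⟩ := hHG g hg
    exact hq φ φ.injective (hHq φ hφ)
  have hGc : ∀ g ∈ G, Continuous g := by
    intro g hg
    obtain ⟨φ, hφ, rfl⟩ := hHG g hg
    exact φ.continuous
  have hGM : ∀ g ∈ G, IsQMob θ g := by
    intro g hg
    obtain ⟨φ, hφ, rfl⟩ := hHG g hg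
    exact hHq φ hφ
  have hGS : ∀ g ∈ G, IsQSEmb g := fun g hg => qsemb_of_qm hθ₀ (hGc g hg) (hGQ g hg)
  have hqm : ∀ g : X → X, IsQSEmb g → ∃ θ, Gauge θ ∧ QM θ g := by
    intro g hg
    obtain ⟨-, hi, η, hη, hqf⟩ := qs_gauge hg
    obtain ⟨θf, hθf, hqm⟩ := qs_qm (X := X) (Y := X) hη
    exact ⟨θf, hθf, hqm g hi hqf⟩
  have K : Sg X G G δ θ₀ := by
    refine ⟨hδ, hθ₀, hid, fun _ h => h, hcomp, hGc, fun g hg => (qs_gauge (hGS g hg)).2.2,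
      fun g hg => ⟨θ₀, hθ₀, hGQ g hg⟩, hinv, hcomp, hco, ?_⟩
    intro g hg a k ha hk φ hφ hbij
    exact qm_limit (fun j => hGQ _ (hcomp _ (ha j) _ (hcomp _ hg _ (hk j))))
      (fun x => hφ.tendsto_at x) hbij.injective
  refine hF {f | IsQSEmb f ∧ ∃ B : Set X, N (f '' B) ∧ ∀ x, x ∉ B → ∀ φ : X ≃ₜ X, Tan G f x φ → φ ∈ H}
    G δ θ hδ (fun f hf => hf.1) ?_ ?_ hid hcomp hinv hco hGM ?_ f ⟨hf, B, hB, ht⟩
  · rintro f₁ ⟨hf₁, B₁, hB₁, ht₁⟩ f₂ ⟨hf₂, B₂, hB₂, ht₂⟩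
    have hBu : N ((f₁ ∘ f₂) '' (B₂ ∪ f₂ ⁻¹' B₁)) := by
      refine hNm _ (f₁ '' (f₂ '' B₂) ∪ f₁ '' B₁) ?_ (hNu _ _ (hNf f₁ hf₁ _ hB₂) hB₁)
      rintro _ ⟨y, hy, rfl⟩
      rcases hy with hy | hy
      · exact Or.inl ⟨f₂ y, ⟨y, hy, rfl⟩, rfl⟩
      · exact Or.inr ⟨f₂ y, hy, rfl⟩
    refine ⟨qsemb_comp hf₂ hf₁, B₂ ∪ f₂ ⁻¹' B₁, hBu, ?_⟩
    intro x hx φ hφ
    rw [mem_union, not_or] at hx
    obtain ⟨θ₁, hθ₁, hq₁⟩ := hqm f₁ hf₁
    obtain ⟨θ₂, hθ₂, hq₂⟩ := hqm f₂ hf₂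
    obtain ⟨ψ, χ, hψ, hψc, hχ, hχc, hTψ, hTχ, hφe⟩ := tan_chain K h3 hθ₁ hθ₂ hq₁ hq₂ hf₁.1.continuous
      hf₂.1.continuous φ.bijective hφ
    obtain ⟨ψ', rfl⟩ := homeo_of hψc hψ
    obtain ⟨χ', rfl⟩ := homeo_of hχc hχ
    have h1 : ψ' ∈ H := ht₂ x hx.1 ψ' hTψ
    have h2 : χ' ∈ H := ht₁ (f₂ x) hx.2 χ' hTχ
    have h4 : φ = ψ'.trans χ' := by
      ext y
      exact congrFun hφe y
    rw [h4]
    exact hHc χ' h2 ψ' h1
  · intro g hg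
    refine ⟨hGS g hg, ∅, by rw [image_empty]; exact hN0, ?_⟩
    rintro x - φ ⟨a, k, k', ha, hk, hk', e1, e2, hcon, hlim⟩
    choose F hF1 hF2 using fun j => hHG _ (hcomp _ (ha j) _ (hcomp _ hg _ (hk' j)))
    refine hHl φ ⟨F, hF1, ?_⟩
    have : (fun j => (F j : X → X)) = fun j => a j ∘ g ∘ k' j := funext fun j => hF2 j
    rw [this]
    exact hlim
  · rintro g ⟨hg, B', hB', ht'⟩
    exact ⟨B', hB', fun x hx φ hφ => hHq φ (ht' x hx φ hφ)⟩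

theorem lusin_transport {Z X : Type*} [MetricSpace Z] [CompactSpace Z] [MeasurableSpace Z] [BorelSpace Z]
    [MetricSpace X] {Q : ℝ} (e : Z ≃ₜ X) (he : IsQSEmb e) (hL : IsLoewner Q Z) {f : X → X} (hf : IsQSEmb f)
    {A : Set X} (hA : μH[Q] (e ⁻¹' A) = 0) : μH[Q] (e ⁻¹' (f '' A)) = 0 := by
  have : CompactSpace X := e.compactSpace
  have he' : IsQSEmb e.symm := qsemb_symm e he
  have himg : e ⁻¹' (f '' A) = (e.symm ∘ f ∘ e) '' (e ⁻¹' A) := by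
    ext z
    constructor
    · rintro ⟨x, hx, hxz⟩
      exact ⟨e.symm x, by simpa using hx, by simp [hxz]⟩
    · rintro ⟨w, hw, rfl⟩
      exact ⟨e w, hw, by simp⟩
  by_cases hss : Subsingleton Z
  · by_cases hAe : (e ⁻¹' A).Nonempty
    · obtain ⟨z, hz⟩ := hAe
      have h1 : e ⁻¹' A = univ := by
        ext w
        simp only [mem_univ, iff_true]
        rw [Subsingleton.elim w z]
        exact hz
      rw [h1] at hA
      exact measure_mono_null (subset_univ _) hA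
    · rw [not_nonempty_iff_eq_empty] at hAe
      rw [himg, hAe, image_empty]
      exact measure_empty
  rw [not_subsingleton_iff_nontrivial] at hss
  obtain ⟨a, b, hab⟩ := exists_pair_ne Z
  have hbdd : Bornology.IsBounded (univ : Set Z) := isBounded_of_compactSpace
  have hD : 0 < diam (univ : Set Z) :=
    lt_of_lt_of_le (dist_pos.mpr hab) (dist_le_diam_of_mem hbdd (mem_univ a) (mem_univ b))
  have H : Sp Z μH[Q] Q := by
    refine ⟨hL.one_lt, hD, ?_, hL.rectConn, ?_⟩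
    · obtain ⟨C, hC, hC2⟩ := hL.ahlfors
      refine ⟨C, hC, fun x r hr hrD => hC2 x r hr ?_⟩
      exact ENNReal.ofReal_le_of_le_toReal hrD
    · obtain ⟨φ, hφ, hφ2⟩ := hL.loewner
      exact loew_path hφ hφ2
  have hcj : IsQSEmb (e.symm ∘ f ∘ e) := qsemb_comp (qsemb_comp he hf) he'
  obtain ⟨hc, hi, η, hη, hq⟩ := qs_gauge hcj
  rw [himg]
  exact lusin H hc hi hη hq hA

theorem group_tangentN {Γ : Type u} [Group Γ] {T : Set Γ} (hT : IsHypGroup T)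
    [MetricSpace (Bdry T)] (hv : IsVisual T) {Z : Type u} [MetricSpace Z] [MeasurableSpace Z] [BorelSpace Z]
    {Q : ℝ} (e : Z ≃ₜ Bdry T) (he : IsQSEmb e) (hL : IsLoewner Q Z)
    (H : Subgroup (Bdry T ≃ₜ Bdry T)) (hHG : ∀ g : Γ, ∃ φ ∈ H, ∀ ξ, φ ξ = act hT.gen g ξ)
    {θ : ℝ≥0 ≃ₜ ℝ≥0} (hHq : ∀ φ ∈ H, IsQMob θ φ)
    (hHl : ∀ φ : Bdry T ≃ₜ Bdry T, (∃ F : ℕ → Bdry T ≃ₜ Bdry T, (∀ j, F j ∈ H) ∧
      TendstoUniformly (fun j => (F j : Bdry T → Bdry T)) φ atTop) → φ ∈ H)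
    {f : Bdry T → Bdry T} (hf : IsQSEmb f)
    (ht : ∀ᵐ z ∂(μH[Q] : Measure Z), ∀ φ : Bdry T ≃ₜ Bdry T, (∃ (g h : ℕ → Γ) (a b : Bdry T), a ≠ b ∧
      Tendsto (fun j => act hT.gen (h j) (e z)) atTop (𝓝 a) ∧
      (∀ y, y ≠ e z → Tendsto (fun j => act hT.gen (h j) y) atTop (𝓝 b)) ∧
      TendstoUniformly (fun j => act hT.gen (g j) ∘ f ∘ act hT.gen (h j)⁻¹) φ atTop) → φ ∈ H) :
    Function.Surjective f := by
  have := bdry_compact hT hv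
  have : CompactSpace Z := e.symm.compactSpace
  obtain ⟨κ, hκ, hco⟩ := act_co hT hv
  rw [ae_iff] at ht
  set B : Set (Bdry T) := {x | ¬ ∀ φ : Bdry T ≃ₜ Bdry T, (∃ (g h : ℕ → Γ) (a b : Bdry T), a ≠ b ∧
      Tendsto (fun j => act hT.gen (h j) x) atTop (𝓝 a) ∧
      (∀ y, y ≠ x → Tendsto (fun j => act hT.gen (h j) y) atTop (𝓝 b)) ∧
      TendstoUniformly (fun j => act hT.gen (g j) ∘ f ∘ act hT.gen (h j)⁻¹) φ atTop) → φ ∈ H} with hBd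
  have hB : μH[Q] (e ⁻¹' B) = 0 := ht
  refine tangentN_main (tformN_transport e he (tformN_loewner hL)) ?_ ?_ ?_ ?_ (G := range (act hT.gen))
    (θ := θ) hκ ?_ ?_ ?_ ?_ (H : Set _) ?_ ?_ hHq hHl hf (B := B) ?_ ?_
  · show μH[Q] (e ⁻¹' ∅) = 0
    rw [preimage_empty]
    exact measure_empty
  · intro A B hAB hB
    exact measure_mono_null (preimage_mono hAB) hB
  · intro A B hA hB
    show μH[Q] (e ⁻¹' (A ∪ B)) = 0
    rw [preimage_union]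
    exact measure_union_null hA hB
  · intro u hu A hA
    exact lusin_transport e he hL hu hA
  · exact ⟨1, funext fun ξ => act_one hT.gen ξ⟩
  · rintro _ ⟨g, rfl⟩ _ ⟨h, rfl⟩
    exact ⟨g * h, funext fun ξ => act_mul hT.gen g h ξ⟩
  · rintro _ ⟨g, rfl⟩
    refine ⟨act hT.gen g⁻¹, ⟨g⁻¹, rfl⟩, ?_, ?_⟩
    · funext ξ
      show act hT.gen g (act hT.gen g⁻¹ ξ) = ξ
      rw [← act_mul, mul_inv_cancel, act_one]
    · funext ξ
      show act hT.gen g⁻¹ (act hT.gen g ξ) = ξ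
      rw [← act_mul, inv_mul_cancel, act_one]
  · intro x y z hxy hxz hyz
    obtain ⟨g, h1, h2, h3⟩ := hco x y z hxy hxz hyz
    exact ⟨act hT.gen g, ⟨g, rfl⟩, h1, h2, h3⟩
  · intro φ hφ ψ hψ
    exact H.mul_mem hφ hψ
  · rintro _ ⟨g, rfl⟩
    obtain ⟨φ, hφ, h⟩ := hHG g
    exact ⟨φ, hφ, funext h⟩
  · exact lusin_transport e he hL hf hB
  · rintro x hx φ ⟨g, h, h', hg, hh, hh', e1, e2, ⟨a, b, hab, ha, hb⟩, hlim⟩
    choose g₁ hg₁ using hg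
    choose h₁ hh₁ using hh
    have e3 : ∀ j, h' j = act hT.gen (h₁ j)⁻¹ := by
      intro j
      funext ξ
      have h5 := e1 j ξ
      rw [← hh₁ j] at h5
      have h6 : act hT.gen (h₁ j)⁻¹ (act hT.gen (h₁ j) (h' j ξ)) = h' j ξ := by
        rw [← act_mul, inv_mul_cancel, act_one]
      rw [h5] at h6
      exact h6.symm
    have hx' : ∀ φ : Bdry T ≃ₜ Bdry T, (∃ (g h : ℕ → Γ) (a b : Bdry T), a ≠ b ∧
      Tendsto (fun j => act hT.gen (h j) x) atTop (𝓝 a) ∧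
      (∀ y, y ≠ x → Tendsto (fun j => act hT.gen (h j) y) atTop (𝓝 b)) ∧
      TendstoUniformly (fun j => act hT.gen (g j) ∘ f ∘ act hT.gen (h j)⁻¹) φ atTop) → φ ∈ H := by
      by_contra hcon
      exact hx hcon
    refine hx' φ ⟨g₁, h₁, a, b, hab, ?_, ?_, ?_⟩
    · simpa only [hh₁] using ha
    · intro y hy
      simpa only [hh₁] using hb y hy
    · have : (fun j => act hT.gen (g₁ j) ∘ f ∘ act hT.gen (h₁ j)⁻¹) = fun j => g j ∘ f ∘ h' j := by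
        funext j
        rw [hg₁ j, e3 j]
      rw [this]
      exact hlim

end QSCoh
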